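import Pool.Agent.H6.G0.Targets
import Pool.Agent.H50.G9.UBB

/-!
# MP_c59857_nt, theorem (H0), row UBR: use of `UBr`
-/

set_option autoImplicit false

namespace Pool.Agent.H63.G0

open Finset Pool.Agent.H6.N4D Pool.Agent.H93 Pool.Agent.H93.GS Pool.Agent.H6.GS2 Pool.Agent.H6.G9
open Pool.Agent.H6.G0 Pool.Agent.H50.G9

theorem pf_UBR (h0 : T_LF0) : T_UBR := by
  obtain ⟨m₂, hm₂⟩ := h0
  obtain ⟨m₃, hm₃⟩ := Pool.Agent.H20.ENM.pf_QMS
  intro P
  refine ⟨max m₂ m₃, 18 * P * P + 1, by positivity, ?_⟩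
  intro lam m n hm hl
  have hm2 : m₂ ≤ m := (le_max_left _ _).trans hm
  have hW := (hm₃ m ((le_max_right _ _).trans hm)).2
  have hNC : Pool.Agent.H3.BT.NCt m (fun _ => 0) := by
    refine hm₂ m 0 (fun _ => 0) hm2 fun q _ => ?_
    have h1 := nd_le_abs ((0 : ℝ) - 0)
    rw [sub_zero, abs_zero] at h1
    rw [sub_zero]
    exact h1.trans (by positivity)
  -- the families are bounded
  have hb : ∀ (J : ℕ) (A : ℝ) (φ : ℕ → ℕ → ℝ) (u : ℕ → ℕ → ℂ), 0 ≤ A → Adm m J A φ u →
      fv lam m n J φ u ≤ 18 * J * A := by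
    intro J A φ u hA h
    unfold fv
    have h1 : ∀ q ∈ EB.QQ m, 1 / (q : ℝ) * (2 * (tx lam q (2 ^ m) n (fam J φ u q)).re -
        ar 1 (2 ^ m) n (fun x => ‖(fam J φ u q).f x‖ ^ 2)) ≤ 1 / (q : ℝ) * (6 * (J * A)) := by
      intro q hq
      unfold EB.QQ at hq
      rw [mem_filter, mem_Ioc] at hq
      have hq1 : 1 ≤ q := hq.2.one_lt.le
      have hq2 : q ≤ 2 ^ m := hq.1.2.trans (Nat.pow_le_pow_right (by norm_num) (Nat.div_le_self _ _))
      have h2 := tx_le lam hl q (2 ^ m) n hq1 hq2 (fam J φ u q)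
      have h3 := fam_nm h q
      have h4 := (Complex.abs_re_le_norm (tx lam q (2 ^ m) n (fam J φ u q)))
      have h5 := le_abs_self (tx lam q (2 ^ m) n (fam J φ u q)).re
      have h6 := ar_nonneg 1 (2 ^ m) n (fun x => ‖(fam J φ u q).f x‖ ^ 2) fun x => by positivity
      refine mul_le_mul_of_nonneg_left ?_ (by positivity)
      linarith
    refine (sum_le_sum h1).trans ?_
    rw [← sum_mul]
    have h7 : 0 ≤ 6 * (J * A) := by positivity
    calc (∑ q ∈ EB.QQ m, 1 / (q : ℝ)) * (6 * (J * A)) ≤ 3 * (6 * (J * A)) :=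
          mul_le_mul_of_nonneg_right hW h7
      _ = 18 * J * A := by ring
  have hP0 : ∀ P : ℕ, (0 : ℝ) ≤ P := fun P => Nat.cast_nonneg P
  have hBdd : ∀ P : ℕ,
      BddAbove {x | ∃ (φ : ℕ → ℕ → ℝ) (u : ℕ → ℕ → ℂ), AdR P m n φ u ∧
        x = fv lam m n P φ u} := by
    intro P
    refine ⟨18 * P * P, ?_⟩
    rintro x ⟨φ, u, h, rfl⟩
    exact hb P P φ u (hP0 P) h.ad
  -- the empty family
  have hz : ∀ P : ℕ, (0 : ℝ) ∈ {x | ∃ (φ : ℕ → ℕ → ℝ) (u : ℕ → ℕ → ℂ),
      AdR P m n φ u ∧ x = fv lam m n P φ u} := by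
    intro P
    refine ⟨fun _ _ => 0, fun _ _ => 0, ⟨⟨fun j _ => hNC, fun j q => ?_,
      fun q _ i _ j _ h => ?_⟩, ⟨fun _ => 0, fun q _ => Or.inl fun j _ h => absurd rfl h⟩⟩, ?_⟩
    · rw [norm_zero]
      exact hP0 P
    · exact absurd rfl h
    · unfold fv
      symm
      apply sum_eq_zero
      intro q _
      have h1 : ∀ x, (fam P (fun _ _ => 0) (fun _ _ => 0) q).f x = 0 := by
        intro x
        unfold fam Ex.f
        simp
      unfold tx ac ar
      simp only [h1]
      simp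
  refine ⟨?_, ?_, ?_, ?_, ?_⟩
  · exact le_csSup (hBdd P) (hz P)
  · refine csSup_le ⟨0, hz P⟩ ?_
    rintro x ⟨φ, u, h, rfl⟩
    have := hb P P φ u (hP0 P) h.ad
    linarith
  · intro φ u h
    exact le_csSup (hBdd P) ⟨φ, u, h, rfl⟩
  · intro ε hε
    obtain ⟨x, ⟨φ, u, h, rfl⟩, hx⟩ := exists_lt_of_lt_csSup ⟨0, hz P⟩
      (show UBr lam P m n - ε < sSup {x | ∃ (φ : ℕ → ℕ → ℝ) (u : ℕ → ℕ → ℂ), AdR P m n φ u ∧
        x = fv lam m n P φ u} by
        have : UBr lam P m n - ε < UBr lam P m n := by linarith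
        exact this)
    exact ⟨φ, u, h, by linarith⟩
  · intro P' hP
    have hPP : (P' : ℝ) ≤ P := by exact_mod_cast hP
    refine csSup_le_csSup (hBdd P) ⟨0, hz P'⟩ ?_
    rintro x ⟨φ, u, h, rfl⟩
    have hfam : ∀ q x, (fam P' φ u q).f x =
        (fam P (fun j => if j < P' then φ j else fun _ => 0)
          (fun j q => if j < P' then u j q else 0) q).f x := by
      intro q x
      unfold fam Ex.f
      simp only
      rw [← sum_subset (range_subset_range.2 hP) (f := fun i =>
        (if i < P' then u i q else 0) * ee ((if i < P' then φ i else fun _ => 0) q * x))]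
      · refine sum_congr rfl fun i hi => ?_
        rw [mem_range] at hi
        simp only [if_pos hi]
      · intro i _ hi
        rw [mem_range] at hi
        simp only [if_neg hi, zero_mul]
    refine ⟨fun j => if j < P' then φ j else fun _ => 0, fun j q => if j < P' then u j q else 0,
      ⟨⟨?_, ?_, ?_⟩, ?_⟩, ?_⟩
    · intro j _
      by_cases hj : j < P'
      · simp only [if_pos hj]
        exact h.ad.nc j hj
      · simp only [if_neg hj]
        exact hNC
    · intro j q
      by_cases hj : j < P'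
      · simp only [if_pos hj]
        exact (h.ad.cb j q).trans hPP
      · simp only [if_neg hj]
        rw [norm_zero]
        exact hP0 P
    · intro q hq i _ j _ hui huj
      have hi : i < P' := by
        by_contra hi
        exact hui (if_neg hi)
      have hj : j < P' := by
        by_contra hj
        exact huj (if_neg hj)
      simp only [if_pos hi, if_pos hj] at hui huj ⊢
      exact h.ad.cl q hq i hi j hj hui huj
    · obtain ⟨γ, hγ⟩ := h.nf
      refine ⟨γ, fun q hq => ?_⟩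
      rcases hγ q hq with h1 | h1
      · refine Or.inl fun j _ hu => ?_
        have hj : j < P' := by
          by_contra hj
          exact hu (if_neg hj)
        simp only [if_pos hj] at hu ⊢
        obtain ⟨i, hi, h2⟩ := h1 j hj hu
        exact ⟨i, hi.trans_le hP, h2.trans (by gcongr)⟩
      · right
        have h2 : 1 / ((P : ℝ) + 1) ≤ 1 / ((P' : ℝ) + 1) := by
          have := hP0 P'
          gcongr
        refine h2.trans (h1.trans (le_of_eq ?_))
        congr 1
        funext x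
        rw [hfam q x]
    · exact fv_congr lam m n P' P hfam

end Pool.Agent.H63.G0
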